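import Pool.Agent.Y910.F.K6
import Pool.Agent.Y79.FT.PL
import Pool.Agent.Y774.FT.EV
import Pool.Agent.Y726.FT.TR

/-!
# MP_d88658_nt: the uniform height bound for the integral points which become divisible by two over a
fixed number field, all degrees and all quadratic twists

Let `f` be an integral polynomial of degree `d` without repeated roots whose coefficients have
absolute value at most `H`, let `g` be a factor of `f` of degree at least three (for instance
`g = f`, if `d ≥ 3`) and let `K` be a number field. For an integer `x` we look at the class of
`x - T` in the algebra `K[T] / (g)` modulo squares and modulo `ℚ`.

**Theorem.** For every `d` there is `M` and for every number field `K` there is `c` such that for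
all `H`, `f`, `g` as above and all integers `x` for which `b (x - T)` is a square in `K[T] / (g)` for
some integer `b ≠ 0`, we have `|x| ≤ (c H) ^ M`, so `h(x) ≤ C₁(d) h(f) + C₂(d, K)`. There is no
condition on the size of `b`.

If `d` is odd, `g = f` and `b` is the leading coefficient of `f`, then for an integral point
`P = (x, y)` of the hyperelliptic curve `y ^ 2 = f(x)` the condition on `x` means that the class of
`P - ∞` is divisible by two in the group `J(K)` of points over `K` of the Jacobian (the map `x - T`
of the 2-descent is injective). For even `d` the 2-descent has its values in the algebra modulo
squares and modulo `ℚ`, and the theorem contains all the integral points whose class becomes trivial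
over `K`. For arbitrary `b` the points of all the quadratic twists `b y ^ 2 = f(x)` are treated at
once. The curve varies and `K` is fixed. If, for instance, `f = g₁ ⋯ gₛ` and `b (x - T)` is `dᵢ` times a
square in `ℚ[T] / (gᵢ)`, where the `dᵢ` are integers composed of a fixed finite set of primes, then
the condition is satisfied for a fixed `K`; these are all the classes of the 2-descent unramified
outside a fixed finite set of primes if all the roots of `f` are rational.

For odd `d`, `g = f`, `b` the leading coefficient this is the theorem `HalvesOverNumberField` of
helper674 (with a different proof, by the subspace theorem); new are all degrees, factors and `b`.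
If `[K : ℚ] < 2 ^ (deg g - 1)`, see also the theorem `HalvesOfSmallDegree` of helper674, where the
constants do not depend on `K`. The proof here: by traces from the Galois closure of `K` we get
`D ∈ ℚ[T]` such that `b D (x - T)` is a square in `ℚ[T] / (g)` and the numbers `D (θ i)` at the roots
`θ i` of `g` are integral and bounded in terms of `K`. The points `x` in this class correspond to
integral points of the irreducible plane curve with the roots
`Y = (√(u₁ (X - θ₁)) ± √(u₂ (X - θ₂)) ± …) ^ 2`, `u i = w i ^ 2 * D (θ i)`. If the point is large, then the
curve has only one place at infinity, and its residue field contains a field `k` of degree at least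
three generated by a number `(∑ ± √(u i)) ^ 2`; for our `D` this number is in the Galois closure of
`K`, so there are only finitely many possibilities for `k`. The library results
`Pool.Agent.Y910.A.monic_struct` and `Pool.Agent.Y910.A.repel_near` (large integral points on plane
curves whose residue fields at infinity contain the same field `k` of degree at least three repel
each other) give one constant for each `k`.

Parts of the proof have been contributed by helpers 79, 383, 396, 420, 525, 662, 726, 774, 876, 907,
930.
-/

open Polynomial

set_option autoImplicit false

namespace Pool.Agent.Results.MP_d88658_nt.DivisibleOverNumberFields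

theorem result (d : ℕ) : ∃ M : ℕ, ∀ (K : Type) [Field K] [NumberField K], ∃ c : ℕ,
    ∀ (H : ℕ) (f : ℤ[X]), f.natDegree = d → (f.map (Int.castRingHom ℚ)).Separable →
    (∀ i, |f.coeff i| ≤ H) → ∀ g : ℤ[X], g ∣ f → 3 ≤ g.natDegree →
    ∀ b : ℤ, b ≠ 0 → ∀ x : ℤ,
      IsSquare (AdjoinRoot.mk (g.map (Int.castRingHom K)) (C (b : K) * (C (x : K) - X))) →
      |x| ≤ (c * H : ℤ) ^ M :=
  Pool.Agent.Y910.F.over_fieldE (Pool.Agent.Y726.FT.done Pool.Agent.Y420.FK.KAP.done)
    Pool.Agent.Y79.FT.done Pool.Agent.Y774.FT.done d

end Pool.Agent.Results.MP_d88658_nt.DivisibleOverNumberFields
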