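import Pool.Agent.Y910.F.K7
import Pool.Agent.Y910.F.F6
import Pool.Agent.Y304.FG.GAP
import Pool.Agent.Y79.FT.PL
import Pool.Agent.Y774.FT.EV
import Pool.Agent.Y876.FC.GEN
import Pool.Agent.Y525.FC.INT
import Pool.Agent.Y396.FC.SG
import Pool.Agent.Y396.FC.IRR
import Pool.Agent.Y907.FC.FLIP

/-!
# MP_d88658_nt: the uniform height bound for all but boundedly many integral points in every coset of
`2 J(ℚ)`, for all degrees and all quadratic twists at once

Let `f` be an integral polynomial of degree `d` without repeated roots whose coefficients have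
absolute value at most `H`, and let `g` be a factor of `f` of degree at least three (for instance
`g = f`, if `d ≥ 3`). We say that two integers `x`, `x'` are in the same class if
`b (x - T) (x' - T)` is a square in the algebra `ℚ[T] / (g)` for some integer `b ≠ 0`.

**Theorem.** For every `d` there are `M` and `N` such that for all `H`, `f`, `g` as above every set of
integers `x` with `|x| > (2 H) ^ M`, all in the same class, has at most `N` elements.

If `d` is odd and `g = f`, then for integral points `P = (x, y)` of the hyperelliptic curve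
`y ^ 2 = f(x)` the class of `x - T` modulo squares is the class of `P - ∞` in `J(ℚ) / 2 J(ℚ)`, where `J`
is the Jacobian (the map `x - T` of the 2-descent is injective). So the uniform bound of Hall, Lang
and Vojta, `h(x) ≤ C₁(d) h(f) + C₂(d)`, holds for all integral points of all hyperelliptic curves of odd
degree `d ≥ 3` with the exception of at most `N(d)` points `x` in every coset of `2 J(ℚ)`; there is no
dependence on the curve, on its primes of bad reduction or on class groups and units of the algebra
`ℚ[T] / (f)`. For even `d` the map `x - T` of the 2-descent has its values in the algebra modulo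
squares and modulo `ℚ`; these are our classes. The integers `b` are arbitrary and may depend on
`x`, `x'`, so that the points of all the quadratic twists `b y ^ 2 = f(x)` with the same class are
counted together. If `g` is a factor of `f`, then only the classes for `g` matter.

The proof. Let `x₀` be the point of the class with the smallest `|x₀|`. Then `D = a ^ 2 (x₀ - T)` is
an integral representative of the class with small conjugates. The points `x` of the class
correspond to integral points of the irreducible plane curve with the roots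
`Y = (√(u₁ (X - θ₁)) ± √(u₂ (X - θ₂)) ± …) ^ 2` of degree `2 ^ (d - 1)` in `Y`, which has several places
at infinity or one place of degree at least three. The library theorem
`Pool.Agent.Y910.E.monic_few` on all plane curves (interpolation determinants at an infinite place
of degree at least three) shows that there are at most `N₁` points with `|x| > |x₀| ^ M₁`. The other
points are few by a gap principle: among any `2 ^ d + 1` points of the class there are two with
`|x'| ≥ |x| ^ 2`.

Parts of the proof have been contributed by helpers 79, 304, 348, 396, 525, 550, 662, 774, 876, 907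
(places, Kummer theory, irreducibility, integrality, gap principle, generic weights).
-/

open Polynomial

set_option autoImplicit false

namespace Pool.Agent.Results.MP_d88658_nt.FewPerCoset

open Pool.Agent.Y910.F

theorem result (d : ℕ) : ∃ M N : ℕ, ∀ (H : ℕ) (f : ℤ[X]), f.natDegree = d →
    (f.map (Int.castRingHom ℚ)).Separable → (∀ i, |f.coeff i| ≤ H) →
    ∀ g : ℤ[X], g ∣ f → 3 ≤ g.natDegree →
    ∀ s : Finset ℤ, (∀ x ∈ s, (2 * H : ℤ) ^ M < |x|) →
      (∀ x ∈ s, ∀ x' ∈ s, ∃ b : ℤ, b ≠ 0 ∧ IsSquare (AdjoinRoot.mk (g.map (Int.castRingHom ℚ))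
        (C (b : ℚ) * ((C (x : ℚ) - X) * (C (x' : ℚ) - X))))) → s.card ≤ N := by
  have hSG := Pool.Agent.Y396.FC.SG.done
  have hM : ∀ e : ℕ, ∃ M N : ℕ, 3 ≤ e → ∀ (H : ℕ) (f : ℤ[X]),
    1 ≤ H → f.natDegree = e → (f.map (Int.castRingHom ℚ)).Separable → (∀ i, |f.coeff i| ≤ H) →
    ∀ s : Finset ℤ, (∀ x ∈ s, (2 * H : ℤ) ^ M < |x|) →
    (∀ x ∈ s, ∀ x' ∈ s, ∃ (b : ℤ) (B : ℚ[X]), b ≠ 0 ∧ f.map (Int.castRingHom ℚ) ∣
      B ^ 2 - C (b : ℚ) * ((C (x : ℚ) - X) * (C (x' : ℚ) - X))) → s.card ≤ N := by
    intro e
    by_cases he : 3 ≤ e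
    · obtain ⟨M, N, h⟩ := fewT (frameT hSG (Pool.Agent.Y525.FC.done hSG)
        Pool.Agent.Y907.FC.FLIP.done Pool.Agent.Y396.FC.IRR.done Pool.Agent.Y79.FT.done
        Pool.Agent.Y876.FC.done Pool.Agent.Y774.FT.done) (Pool.Agent.Y304.FG.GAP.done core3) e he
      exact ⟨M, N, fun _ => h⟩
    · exact ⟨0, 0, fun h => absurd h he⟩
  choose M N hM using hM
  obtain ⟨M0, hM0⟩ : ∃ M0, M0 = ∑ e ∈ Finset.range (d + 1), M e := ⟨_, rfl⟩
  obtain ⟨N0, hN0⟩ : ∃ N0, N0 = ∑ e ∈ Finset.range (d + 1), N e := ⟨_, rfl⟩
  refine ⟨(2 * d + 2) * M0, N0, ?_⟩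
  intro H f hd hsep hcoef g hgf hg3 s hs hcl
  have hf0 : f ≠ 0 := by
    rintro rfl
    rw [Polynomial.map_zero] at hsep
    exact not_separable_zero hsep
  have hH1 : 1 ≤ H := by
    have h1 := (Int.one_le_abs (leadingCoeff_ne_zero.2 hf0)).trans (hcoef f.natDegree)
    exact_mod_cast h1
  obtain ⟨H', hH'⟩ : ∃ H', H' = 2 ^ d * ((d + 1) * H) := ⟨_, rfl⟩
  have hH'1 : 1 ≤ H' := by
    rw [hH']
    exact Nat.mul_pos (by positivity) (Nat.mul_pos (by omega) hH1)
  have hgd : g.natDegree ≤ d := by
    rw [← hd]; exact natDegree_le_of_dvd hgf hf0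
  have hgs : (g.map (Int.castRingHom ℚ)).Separable :=
    hsep.of_dvd (Polynomial.map_dvd _ hgf)
  have h2 : 2 * H' ≤ (2 * H) ^ (2 * d + 2) := by
    have h3 : d + 1 ≤ 2 ^ d := Nat.lt_two_pow_self
    calc 2 * H' = 2 ^ d * (d + 1) * (2 * H) := by rw [hH']; ring
      _ ≤ 2 ^ d * 2 ^ d * (2 * H) := by gcongr
      _ = 2 ^ (2 * d) * (2 * H) := by rw [← pow_add, ← two_mul]
      _ ≤ (2 * H) ^ (2 * d) * (2 * H) := by
          gcongr
          omega
      _ = (2 * H) ^ (2 * d + 1) := by rw [pow_succ]
      _ ≤ _ := Nat.pow_le_pow_right (by omega) (by omega)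
  have hmem : g.natDegree ∈ Finset.range (d + 1) := Finset.mem_range.2 (by omega)
  have h4 : M g.natDegree ≤ M0 := by
    rw [hM0]
    exact Finset.single_le_sum (f := M) (fun _ _ => Nat.zero_le _) hmem
  have h5 : N g.natDegree ≤ N0 := by
    rw [hN0]
    exact Finset.single_le_sum (f := N) (fun _ _ => Nat.zero_le _) hmem
  refine (hM g.natDegree hg3 H' g hH'1 rfl hgs (fun i => by
    rw [hH']
    exact factor_bound d H f g hd hf0 hcoef hgf i) s (fun x hx => ?_)
    (fun x hx x' hx' => ?_)).trans h5
  · refine lt_of_le_of_lt ?_ (hs x hx)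
    have h6 : (2 * H') ^ M g.natDegree ≤ (2 * H) ^ ((2 * d + 2) * M0) := by
      calc (2 * H') ^ M g.natDegree ≤ ((2 * H) ^ (2 * d + 2)) ^ M g.natDegree :=
            Nat.pow_le_pow_left h2 _
        _ = (2 * H) ^ ((2 * d + 2) * M g.natDegree) := by rw [← pow_mul]
        _ ≤ _ := Nat.pow_le_pow_right (by omega) (Nat.mul_le_mul_left _ h4)
    exact_mod_cast h6
  · obtain ⟨b, hb, r, hr⟩ := hcl x hx x' hx'
    obtain ⟨B, rfl⟩ := AdjoinRoot.mk_surjective r
    refine ⟨b, B, hb, ?_⟩
    rw [← AdjoinRoot.mk_eq_mk, hr, ← map_mul, sq]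

end Pool.Agent.Results.MP_d88658_nt.FewPerCoset
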