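import Mathlib
import Pool.Agent.Y674.HY.Fin
import Pool.Agent.Y674.HY.Runm
import Pool.Agent.Y436.HY.Expi
import Pool.Agent.Y832.HY.Ntr
import Pool.Agent.Y832.HY.Cram
import Pool.Agent.Y832.HY.Indp
import Pool.Agent.Y945.HY.Sieg
import Pool.Agent.Y584.HY.Nonv
import Pool.Agent.Y688.HY.Small
import Pool.Agent.Y109.HY.Gala
import Pool.Agent.Y921.HY.Red

/-!
# The Hall-Lang-Vojta height bound for the integral points with a half of less than maximal degree

Let `f` be an integral polynomial of degree `d ≥ 2` without multiple roots and `x` an integer. The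
classes of the vectors of square roots `(√(x - r))_r`, `r` the roots of `f`, modulo a common sign
are `2 ^ (d - 1)` in number and are permuted by the absolute Galois group. We prove the bound
`h(x) ≤ C₁(d) h(f) + C₂(d)` of the problem whenever this action is not transitive because one of the
classes is defined over a number field `K` of degree less than `2 ^ (d - 1)`; this means that
`x - X = D ρ ^ 2` modulo `f` with `D` in `K` and `ρ` in `K[X]`.

For odd `d = 2 g + 1` and an integral point `P = (x, y)` of `y ^ 2 = f(x)` the classes are the
`2 ^ (2 g)` halves of the point `P - ∞` in the Jacobian `J`, and the hypothesis holds if `P - ∞` is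
divisible by two in `J(K)` for some number field `K` of degree less than `2 ^ (2 g)`
(`D = 1 / a`, `a` the leading coefficient). The constants do not depend on `K` and are effective.

The proof is Runge's method on the two-covering of the curve, made uniform: an auxiliary form in
the products of an even number of the square roots, with coefficients polynomial in `x` (solutions
of linear equations by minors of bounded height), is small at all conjugates of the point, so it
vanishes at the point; the linear independence of the products of the square roots of the linear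
polynomials `x - r` over the rational functions then bounds `x`.
-/

set_option autoImplicit false

namespace Pool.Agent.Results.MP_d88658_nt.HalvesOfSmallDegree

open Polynomial

/-- `x - X` is the product of a nonzero element of `K` and a square modulo `f` over `K`. -/
def TwistedSquareMod (K : Type) [Field K] (f : ℤ[X]) (x : ℤ) : Prop :=
  ∃ (D : K) (ρ : K[X]), D ≠ 0 ∧ f.map (Int.castRingHom K) ∣ C D * ρ ^ 2 - (C (x : K) - X)

open Pool.Agent.Y674.HY in
theorem runge : RUNGE :=
  Pool.Agent.Y921.HY.red (runm Pool.Agent.Y436.HY.expi
    (Pool.Agent.Y945.HY.sieg Pool.Agent.Y832.HY.cram) Pool.Agent.Y688.HY.small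
    (Pool.Agent.Y584.HY.nonv Pool.Agent.Y832.HY.indp) Pool.Agent.Y832.HY.ntr
    Pool.Agent.Y109.HY.gala)

/-- For every `d ≥ 2` there are `C₁`, `C₂` with `h(x) ≤ C₁ h(f) + C₂` for all number fields `K` of
degree less than `2 ^ (d - 1)`, all integral polynomials `f` of degree `d` without multiple roots
and all integers `x` such that `x - X` is an element of `K` times a square modulo `f` over `K`. -/
theorem result (d : ℕ) (hd : 2 ≤ d) : ∃ C₁ C₂ : ℝ,
    ∀ (K : Type) [Field K] [NumberField K], Module.finrank ℚ K < 2 ^ (d - 1) →
    ∀ f : ℤ[X], f.natDegree = d → (f.map (Int.castRingHom ℚ)).Separable →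
    ∀ x : ℤ, TwistedSquareMod K f x →
      Real.log (max |(x : ℝ)| 1) ≤
        C₁ * Real.log (max ((f.support.sup (fun i => (f.coeff i).natAbs) : ℕ) : ℝ) 1) + C₂ := by
  obtain ⟨C₀, k₀, h⟩ := runge d hd
  refine ⟨k₀, Real.log (max (C₀ : ℝ) 1), ?_⟩
  rintro K _ _ hK f hf hs x ⟨D, ρ, hD, hρ⟩
  have hf0 : f ≠ 0 := by
    rintro rfl
    rw [natDegree_zero] at hf
    omega
  exact Pool.Agent.Y674.HY.log_form f hf0 x C₀ k₀
    (h f _ hf hs (Pool.Agent.Y674.HY.mx_pos f hf0) (Pool.Agent.Y674.HY.mx_coeff f) x K hK D ρ hD hρ)

end Pool.Agent.Results.MP_d88658_nt.HalvesOfSmallDegree
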